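import Mathlib
import Pool.Agent.L7h19.EA.Stm4

/-!
# Project EA (helper19), part NAV (helper63)

The mean value of the number of the primes `p ∣ f(t)` which satisfy a rule, from the second moments
by the inequality of Cauchy and Schwarz.
-/

set_option autoImplicit false

namespace Pool.Agent.L7h63.EA

open Finset Polynomial
open Pool.Agent.L7h19.FT (sp S_TKV)
open Pool.Agent.L7h19.IS (om S_TK)
open Pool.Agent.L7h19.EA (rl S_NAV)

/-- the inequality of Cauchy and Schwarz, with a bounded error -/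
theorem cs (S : Finset ℤ) (F G : ℤ → ℝ) (V C L L0 : ℝ) (hV : 1 ≤ V) (hL0 : 0 < L0) (hL : L0 ≤ L)
    (hc : (S.card : ℝ) ≤ 2 * V) (hC : 0 ≤ C) (h2 : ∑ t ∈ S, F t ^ 2 ≤ C * V * L)
    (hG : ∀ t ∈ S, |G t| ≤ |F t| + 1) :
    ∑ t ∈ S, |G t| ≤ (√(2 * C) + 2 / √L0) * V * √L := by
  have hV0 : 0 ≤ V := by linarith
  have hLp : 0 < L := lt_of_lt_of_le hL0 hL
  have hs0 : 0 < √L0 := Real.sqrt_pos.2 hL0
  have hs1 : √L0 ≤ √L := Real.sqrt_le_sqrt hL
  have h1 : ∑ t ∈ S, |G t| ≤ ∑ t ∈ S, |F t| + S.card := by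
    calc ∑ t ∈ S, |G t| ≤ ∑ t ∈ S, (|F t| + 1) := Finset.sum_le_sum hG
      _ = ∑ t ∈ S, |F t| + S.card := by
        rw [Finset.sum_add_distrib, Finset.sum_const, nsmul_eq_mul, mul_one]
  have h3 : (∑ t ∈ S, |F t|) ^ 2 ≤ (√(2 * C) * V * √L) ^ 2 := by
    have h4 : (∑ t ∈ S, |F t|) ^ 2 ≤ (S.card : ℝ) * ∑ t ∈ S, |F t| ^ 2 :=
      sq_sum_le_card_mul_sum_sq
    have h5 : ∑ t ∈ S, |F t| ^ 2 = ∑ t ∈ S, F t ^ 2 := Finset.sum_congr rfl fun t _ => sq_abs _
    rw [h5] at h4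
    have h6 : 0 ≤ ∑ t ∈ S, F t ^ 2 := Finset.sum_nonneg fun t _ => sq_nonneg _
    have h7 : (√(2 * C) * V * √L) ^ 2 = 2 * V * (C * V * L) := by
      rw [mul_pow, mul_pow, Real.sq_sqrt (by positivity), Real.sq_sqrt hLp.le]
      ring
    rw [h7]
    exact h4.trans (mul_le_mul hc h2 h6 (by linarith))
  have h8 : ∑ t ∈ S, |F t| ≤ √(2 * C) * V * √L :=
    (pow_le_pow_iff_left₀ (Finset.sum_nonneg fun t _ => abs_nonneg _) (by positivity)
      two_ne_zero).1 h3
  have h9 : 2 * V ≤ 2 / √L0 * V * √L := by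
    have : 1 ≤ √L / √L0 := (one_le_div hs0).2 hs1
    calc 2 * V = 2 * V * 1 := by ring
      _ ≤ 2 * V * (√L / √L0) := mul_le_mul_of_nonneg_left this (by linarith)
      _ = 2 / √L0 * V * √L := by ring
  calc ∑ t ∈ S, |G t| ≤ ∑ t ∈ S, |F t| + S.card := h1
    _ ≤ √(2 * C) * V * √L + 2 / √L0 * V * √L := add_le_add h8 (hc.trans h9)
    _ = _ := by ring

theorem cnt (κ n : ℤ) : |(((n.natAbs.primeFactors.filter (fun p => Pool.Agent.L7h19.EA.sq p κ = true)).card : ℝ)) -
    ((sp κ n : ℕ) : ℝ)| ≤ 1 := by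
  classical
  have h1 : sp κ n ≤ (n.natAbs.primeFactors.filter (fun p => Pool.Agent.L7h19.EA.sq p κ = true)).card := by
    unfold sp
    refine Finset.card_le_card fun p hp => ?_
    rw [Finset.mem_filter] at hp ⊢
    exact ⟨hp.1, by simp [Pool.Agent.L7h19.EA.sq, hp.2.2]⟩
  have h2 : (n.natAbs.primeFactors.filter (fun p => Pool.Agent.L7h19.EA.sq p κ = true)).card ≤ sp κ n + 1 := by
    unfold sp
    refine le_trans (Finset.card_le_card (t := insert 2 (n.natAbs.primeFactors.filter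
      (fun p => p ≠ 2 ∧ jacobiSym κ p = 1))) fun p hp => ?_) (Finset.card_insert_le _ _)
    rw [Finset.mem_filter] at hp
    rw [Finset.mem_insert, Finset.mem_filter]
    by_cases h : p = 2
    · exact Or.inl h
    · exact Or.inr ⟨hp.1, h, by simpa [Pool.Agent.L7h19.EA.sq] using hp.2⟩
  have h1' : ((sp κ n : ℕ) : ℝ) ≤
      ((n.natAbs.primeFactors.filter (fun p => Pool.Agent.L7h19.EA.sq p κ = true)).card : ℝ) := by exact_mod_cast h1
  have h2' : ((n.natAbs.primeFactors.filter (fun p => Pool.Agent.L7h19.EA.sq p κ = true)).card : ℝ) ≤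
      ((sp κ n : ℕ) : ℝ) + 1 := by exact_mod_cast h2
  rw [abs_le]
  constructor <;> linarith

theorem loglog3 : 0 < Real.log (Real.log 3) := by
  apply Real.log_pos
  rw [Real.lt_log_iff_exp_lt (by norm_num)]
  have := Real.exp_one_lt_d9
  linarith

/-- the second moment bounds the first -/
theorem fst (f K : ℤ[X]) (m : ℤ) (ε C : ℝ) (hε : 0 < ε)
    (h : ∀ (X : ℕ) (u v : ℤ), 3 ≤ X → u.natAbs ≤ X → v.natAbs ≤ X → (X : ℝ) ^ ε ≤ (v : ℝ) - u →
      ∑ t ∈ (Icc u v).filter (fun t : ℤ => f.eval t ≠ 0),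
        (((sp (K.eval t) (f.eval t) : ℕ) : ℝ) - (m : ℝ) / 2 * Real.log (Real.log X)) ^ 2 ≤
        C * ((v : ℝ) - u) * Real.log (Real.log X)) :
    ∃ C' : ℝ, ∀ (X : ℕ) (u v : ℤ), 3 ≤ X → u.natAbs ≤ X → v.natAbs ≤ X →
      (X : ℝ) ^ ε ≤ (v : ℝ) - u →
      ∑ t ∈ (Icc u v).filter (fun t : ℤ => f.eval t ≠ 0),
        |(((f.eval t).natAbs.primeFactors.filter (fun p => Pool.Agent.L7h19.EA.sq p (K.eval t) = true)).card : ℝ) -
          (m : ℝ) / 2 * Real.log (Real.log X)| ≤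
        C' * ((v : ℝ) - u) * √(Real.log (Real.log X)) := by
  refine ⟨√(2 * max C 0) + 2 / √(Real.log (Real.log 3)), fun X u v hX hu hv hl => ?_⟩
  have hX3 : (3 : ℝ) ≤ X := by exact_mod_cast hX
  have h3 : Real.log (Real.log 3) ≤ Real.log (Real.log X) := by
    have : 0 < Real.log (3 : ℝ) := Real.log_pos (by norm_num)
    exact Real.log_le_log this (Real.log_le_log (by norm_num) hX3)
  have hV : 1 ≤ (v : ℝ) - u := le_trans (Real.one_le_rpow (by linarith) hε.le) hl
  have hLp : 0 < Real.log (Real.log X) := lt_of_lt_of_le loglog3 h3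
  have hcard : ((((Icc u v).filter (fun t : ℤ => f.eval t ≠ 0)).card : ℕ) : ℝ) ≤
      2 * ((v : ℝ) - u) := by
    have h4 : ((Icc u v).filter (fun t : ℤ => f.eval t ≠ 0)).card ≤ (Icc u v).card :=
      Finset.card_filter_le _ _
    rw [Int.card_Icc] at h4
    have h5 : (((v + 1 - u).toNat : ℕ) : ℝ) = (v : ℝ) + 1 - u := by
      have h6 : ((v + 1 - u).toNat : ℤ) = v + 1 - u := by
        apply Int.toNat_of_nonneg
        have : (u : ℝ) < v := by linarith
        have : u < v := by exact_mod_cast this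
        omega
      have h7 : ((((v + 1 - u).toNat : ℕ) : ℤ) : ℝ) = ((v + 1 - u : ℤ) : ℝ) := by rw [h6]
      push_cast at h7
      exact h7
    have h8 : ((((Icc u v).filter (fun t : ℤ => f.eval t ≠ 0)).card : ℕ) : ℝ) ≤
        (((v + 1 - u).toNat : ℕ) : ℝ) := by exact_mod_cast h4
    linarith
  refine cs _ (fun t => ((sp (K.eval t) (f.eval t) : ℕ) : ℝ) -
    (m : ℝ) / 2 * Real.log (Real.log X)) _ _ (max C 0) _ _ hV loglog3 h3 hcard
    (le_max_right _ _) ?_ ?_
  · refine (h X u v hX hu hv hl).trans ?_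
    have : C * ((v : ℝ) - u) ≤ max C 0 * ((v : ℝ) - u) :=
      mul_le_mul_of_nonneg_right (le_max_left _ _) (by linarith)
    exact mul_le_mul_of_nonneg_right this hLp.le
  · intro t _
    have h9 := cnt (K.eval t) (f.eval t)
    set A := (((f.eval t).natAbs.primeFactors.filter
      (fun p => Pool.Agent.L7h19.EA.sq p (K.eval t) = true)).card : ℝ)
    set B := ((sp (K.eval t) (f.eval t) : ℕ) : ℝ)
    set M := (m : ℝ) / 2 * Real.log (Real.log X)
    calc |A - M| = |(B - M) + (A - B)| := by ring_nf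
      _ ≤ |B - M| + |A - B| := abs_add_le _ _
      _ ≤ |B - M| + 1 := by linarith

/-- **NAV** -/
theorem s_NAV (hTK : S_TK) (hTKV : S_TKV) : S_NAV := by
  classical
  intro f K R hf hd hK
  rcases R with _ | _ | _
  · by_cases hsq : IsSquare (AdjoinRoot.mk (f.map (Int.castRingHom ℚ))
      (K.map (Int.castRingHom ℚ)))
    · refine ⟨2, fun ε hε => ?_⟩
      obtain ⟨C, hC⟩ := hTKV f K ε hf hd hK hε
      refine fst f K 2 ε C hε fun X u v hX hu hv hl => ?_
      have h := (hC X u v hX hu hv hl).1 hsq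
      have e : ((2 : ℤ) : ℝ) / 2 * Real.log (Real.log X) = Real.log (Real.log X) := by
        push_cast
        ring
      rw [e]
      exact h
    · refine ⟨1, fun ε hε => ?_⟩
      obtain ⟨C, hC⟩ := hTKV f K ε hf hd hK hε
      refine fst f K 1 ε C hε fun X u v hX hu hv hl => ?_
      have h := (hC X u v hX hu hv hl).2 hsq
      have e : ((1 : ℤ) : ℝ) / 2 * Real.log (Real.log X) = Real.log (Real.log X) / 2 := by
        push_cast
        ring
      rw [e]
      exact h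
  · refine ⟨0, fun ε _ => ⟨0, fun X u v _ _ _ _ => ?_⟩⟩
    simp [rl]
  · refine ⟨2, fun ε hε => ?_⟩
    obtain ⟨C, hC⟩ := hTK f ε hf hd hε
    refine ⟨C, fun X u v hX hu hv hl => ?_⟩
    have h := hC X u v hX hu hv hl
    have e : ((2 : ℤ) : ℝ) / 2 * Real.log (Real.log X) = Real.log (Real.log X) := by
      push_cast
      ring
    rw [e]
    have e2 : ∀ t : ℤ, (f.eval t).natAbs.primeFactors.filter
        (fun p => rl (some true) p (K.eval t) = true) = (f.eval t).natAbs.primeFactors := by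
      intro t
      apply Finset.filter_true_of_mem
      intro p _
      rfl
    simp only [e2]
    exact h

end Pool.Agent.L7h63.EA
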